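import Pool.Agent.Q300.LM.Glob

/-!
# The motivic monodromy conjecture over `X_s`, reduced form, for hypersurfaces with finitely many
# singular points, all of them stably sparse

Let `f ∈ ℂ[x_1, …, x_n]` be nonconstant such that `{f = 0}` has only finitely many points where all
the partial derivatives of `f` vanish, and the germ of `f` at each of them is stably sparse: for some
`κ` the germ of `f(p + x) + y_1 z_1 + ⋯ + y_κ z_κ` becomes, in suitable formal coordinates and up to a
unit factor, a polynomial `∑_j c_j X ^ (v j)` with affinely independent exponents (for instance, all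
the simple singularities, and those given by Brieskorn-Pham polynomials or invertible polynomials
in suitable formal coordinates). For all constructible sets `W` of origins and all constructible sets
`E` of nonzero angular components let `Z_{f,W,E}` be the motivic zeta function of the jets `φ` with
`φ(0) ∈ W`, `f(φ) = a t ^ m mod t ^ (m + 1)`, `a ∈ E`. We prove that there is ONE finite set `S` of
pairs `(a, b)` with `a / b` a root of the reduced Bernstein-Sato polynomial `b_f(s) / (s + 1)` such
that all `(1 - 𝕃⁻¹ T) Z_{f,W,E}` lie in the ring generated by `T` and the `1 / (1 - 𝕃 ^ a T ^ b)`,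
`(a, b) ∈ S`.

Method. (1) The classes of the `N`-jets with origin `0` on which `F` has order `N` and a given
angular component (or order at least `i`) are invariant under formal changes of coordinates and
multiplication of `F` by a unit with constant term one; the inverse of a formal change of
coordinates is constructed up to any order by Newton's method. (2) By the classification of the jets
of `F + y z` (starting library, `Y229.MS`) the classes for `F` determine those for `F + y z` for all
origins `(0, y, z)`; the origins different from `0` are smooth points and contribute only the factor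
`1 / (1 - 𝕃 ^ (-1) T)` (`Q59.TR`). So the zeta functions of `G` and `G + y z` at the origin determine
that of `f`. (3) The theorem on affinely independent exponents at the origin (starting library,
`TH216.LR`) is refined: `(1 - 𝕃 ^ (-1) T) Z_{G,0}(T)` has only the denominators
`1 - 𝕃 ^ (- |a|) T ^ (N_a)` such that `- |a| / N_a` is a root of every `c(s)` with `(s + 1) c(s)` in the
local Bernstein-Sato ideal of `G`. (4) A local functional equation of `f` with `(s + 1) c(s)` gives
one of `G` with `(s + 1) c(s + κ)`.
-/

set_option autoImplicit false

namespace Pool.Agent.Results.MP_b48657_ag.StablySparseSingularities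

open MvPolynomial Pool.Agent.W428.MOT Pool.Agent.Q300.LM
open Pool.Agent.W375.MG (zetaG Good)
open Pool.Agent.H628R4.TP (IsBFunction)

/-- the factor `1 - 𝕃⁻¹ T` -/
noncomputable def first : PowerSeries (MK ℂ) :=
  1 - PowerSeries.C (((Lu ℂ)⁻¹ : (MK ℂ)ˣ) : MK ℂ) * PowerSeries.X

/-- **The reduced strong form, uniform over `X_s` and the angular components, for `f` with finitely
many singular points in `{f = 0}`, all of them stably sparse.**

`StablySparseAt f p`: for some `κ` the germ of `f(p + x) + ∑_{i ≤ κ} y_i z_i` at the origin becomes, in
suitable formal coordinates and up to a unit factor, a polynomial `∑_j c_j X ^ (v j)`, `c_j ≠ 0`, at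
least one term, with affinely independent exponents `v j ≠ 0`. `zetaG f W E` is
`∑_{m ≥ 0} [X_{m,W,E}] 𝕃 ^ (- n m) T ^ m`, `X_{m,W,E}` the `m`-jets `φ` with `φ(0) ∈ W` and
`f(φ) = a t ^ m mod t ^ (m + 1)`, `a ∈ E`. -/
theorem result {n : ℕ} (f : MvPolynomial (Fin n) ℂ) (hf : f.totalDegree ≠ 0)
    (hfin : {p : Fin n → ℂ | eval p f = 0 ∧ ∀ j, eval p (pderiv j f) = 0}.Finite)
    (h : ∀ p : Fin n → ℂ, eval p f = 0 → (∀ j, eval p (pderiv j f) = 0) →
      StablySparseAt f p) :
    ∃ S : Finset (ℤ × ℤ),
      (∀ q ∈ S, 0 < q.2 ∧ ∀ c : Polynomial ℂ, IsBFunction f ((Polynomial.X + 1) * c) →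
        c.eval ((q.1 : ℂ) / q.2) = 0) ∧
      ∀ (W : Set (Pt ℂ (Fin n))) (E : Set (AlgebraicClosure ℂ)), Constr W → Good E →
        first * zetaG f W E ∈ ratRing ℂ S :=
  Pool.Agent.Q300.LM.globalR f hf hfin h

end Pool.Agent.Results.MP_b48657_ag.StablySparseSingularities
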