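import Pool.Agent.Q260.MM.Gl

/-!
# The motivic monodromy conjecture over `X_s`: reduction to trilinear polynomials

Let `f ∈ ℂ[x_1, …, x_n]` be a non-constant polynomial. The motivic zeta function of the problem has
coefficients in the Grothendieck ring of varieties over `X_s = {f = 0}` with an action of `μ`. Here it is
considered through all its restrictions to constructible sets of origins and through all conditions on
the angular component: for every constructible set `W` of points and every constructible set `E` of non-zero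
numbers

`Z_{f,W,E} = ∑_{m ≥ 0} [X_{m,W,E}] 𝕃 ^ (- n m) T ^ m`,

`X_{m,W,E}` the `m`-jets `φ` with `φ(0) ∈ W` and `f(φ) = a t ^ m` modulo `t ^ (m + 1)`, `a ∈ E`. For `E = {1}`,
`W = X_s` this is (up to the term `m = 0`) the function of the problem with forgotten action and structure
morphism, for `E = {1}`, `W = {x}` it is `Z_{f,x}`.

We prove, for every collection `𝓔` of sets `E`: if for all trilinear polynomials
`G = ∑ a_{ijk} x_i y_j z_k` (`x_0 = y_0 = z_0 = 1`) there is ONE finite set `S` of pairs with `a / b` a root of the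
reduced Bernstein-Sato polynomial `b_G(s) / (s + 1)` such that `(1 - 𝕃⁻¹ T) Z_{G,W,E}` lies in
`𝓜[T][1 / (1 - 𝕃 ^ a T ^ b)]_{(a,b) ∈ S}` for all `W` and all `E ∈ 𝓔`, then the same holds for all
non-constant polynomials `f`.

The elimination for `f + y z` is from the starting library (`Pool.Agent.Y229.MS`), the automorphism of
`f + y_1 z_1 + ⋯ + y_κ z_κ` is from `Pool.Agent.Q59.TR`.
-/

set_option autoImplicit false

namespace Pool.Agent.Results.MP_b48657_ag.TrilinearReduction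

open MvPolynomial Pool.Agent.W375.MG Pool.Agent.W428.MOT Pool.Agent.H628R4.TP
open Pool.Agent.Y229.MS (itr Witr shn zeta_iso ce_good descend' constr_Witr constr_pull)
open Pool.Agent.Q59.TR (exists_chain deg_iso itr_deg b_itr)

/-- `1 - 𝕃⁻¹ T` -/
noncomputable def first : PowerSeries (MK ℂ) :=
  1 - PowerSeries.C (((Lu ℂ)⁻¹ : (MK ℂ)ˣ) : MK ℂ) * PowerSeries.X

/-- The uniform reduced strong conjecture for `f` and the collection `𝓔`: there is a finite set `S` of
pairs `(a, b)`, `b > 0`, such that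

* `a / b` is a root of every polynomial `c` for which `(s + 1) c(s)` satisfies a functional equation
  `(s + 1) c(s) f ^ s = P(s) f ^ (s + 1)`, `P(s)` in the Weyl algebra, polynomial in `s`; in particular of the
  reduced Bernstein-Sato polynomial `b_f(s) / (s + 1)`;
* for all constructible `W` and all `E ∈ 𝓔`, `(1 - 𝕃⁻¹ T) Z_{f,W,E}` lies in the subring of `𝓜[[T]]`
  generated by `𝓜`, `T` and the `1 / (1 - 𝕃 ^ a T ^ b)`, `(a, b) ∈ S`. -/
def UniformMC (𝓔 : Set (Set (AlgebraicClosure ℂ))) {n : ℕ} (f : MvPolynomial (Fin n) ℂ) : Prop :=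
  ∃ S : Finset (ℤ × ℤ),
    (∀ p ∈ S, 0 < p.2 ∧ ∀ c : Polynomial ℂ, IsBFunction f ((Polynomial.X + 1) * c) →
      c.eval ((p.1 : ℂ) / p.2) = 0) ∧
    ∀ W : Set (Pt ℂ (Fin n)), Constr W → ∀ E ∈ 𝓔, first * zetaG f W E ∈ ratRing ℂ (S : Set (ℤ × ℤ))

/-- `f = ∑ a_{ijk} x_i y_j z_k` with `x_0 = y_0 = z_0 = 1`: the variables can be coloured with three
colours such that every monomial of `f` is of degree at most one in the variables of each colour. -/
def Trilinear {n : ℕ} (f : MvPolynomial (Fin n) ℂ) : Prop :=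
  ∃ col : Fin n → Fin 3, ∀ w ∈ f.support, ∀ g : Fin 3,
    ∑ i ∈ Finset.univ.filter (fun i => col i = g), w i ≤ 1

theorem shn_finite {j : ℕ} {S : Set (ℤ × ℤ)} (h : S.Finite) : (shn j S).Finite := by
  refine (h.image fun q : ℤ × ℤ => ((q.1 + j * q.2, q.2) : ℤ × ℤ)).subset ?_
  rintro p ⟨q, hq, rfl⟩
  exact ⟨q, hq, rfl⟩

/-- the transfer for one polynomial -/
theorem transfer (𝓔 : Set (Set (AlgebraicClosure ℂ))) (h𝓔 : ∀ E ∈ 𝓔, Good E)
    (h : ∀ (n : ℕ) (f : MvPolynomial (Fin n) ℂ), f.totalDegree ≠ 0 → Trilinear f → UniformMC 𝓔 f)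
    {n : ℕ} (f : MvPolynomial (Fin n) ℂ) (hf : f.totalDegree ≠ 0) : UniformMC 𝓔 f := by
  classical
  obtain ⟨κ, hκ⟩ := exists_chain f
  have key : ∀ j : ℕ, κ ≤ j → ∃ S : Set (ℤ × ℤ), S.Finite ∧ (∀ p ∈ S, 0 < p.2) ∧
      shn j S ⊆ Pool.Agent.Q260.MM.RdG f ∧ ∀ W : Set (Pt ℂ (Fin n)), Constr W → ∀ E ∈ 𝓔,
        first * zetaG (itr f j) (Witr W j) E ∈ ratRing ℂ S := by
    intro j hj
    obtain ⟨M, G, ψ, hM, hψ, hT, -⟩ := hκ j hj
    have hG : G.totalDegree ≠ 0 := by
      rw [← hψ]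
      exact deg_iso ψ (itr_deg hf j)
    obtain ⟨S, hS, hz⟩ := h M G hG hT
    refine ⟨S, S.finite_toSet, fun p hp => (hS p hp).1, ?_, fun W hW E hE => ?_⟩
    · have h1 : (S : Set (ℤ × ℤ)) ⊆ Pool.Agent.Q260.MM.RdG G := fun p hp => hS p hp
      have h2 : shn j (S : Set (ℤ × ℤ)) ⊆ shn j (Pool.Agent.Q260.MM.RdG G) := by
        rintro p ⟨q, hq, rfl⟩
        exact ⟨q, h1 hq, rfl⟩
      refine h2.trans (Pool.Agent.Q260.MM.shiftR_mem fun c hc => ?_)
      rw [← hψ]
      exact Pool.Agent.W206.CU.isBFunction_iso ψ (b_itr hf hc j)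
    · have h3 := zeta_iso Pool.Agent.Z864.MS.three hM ψ (itr f j)
        (W := Witr W j) (constr_Witr hW j) (ce_good (h𝓔 E hE))
      rw [← h3, hψ]
      exact hz _ (constr_pull ψ (constr_Witr hW j)) E hE
  obtain ⟨S1, f1, p1, s1, m1⟩ := key κ le_rfl
  obtain ⟨S2, f2, p2, s2, m2⟩ := key (κ + 1) (Nat.le_succ κ)
  have hfin : (shn κ S1 ∪ shn (κ + 1) S2).Finite := (shn_finite f1).union (shn_finite f2)
  refine ⟨hfin.toFinset, fun p hp => ?_, fun W hW E hE => ?_⟩
  · rw [Set.Finite.mem_toFinset] at hp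
    rcases hp with hp | hp
    · exact s1 hp
    · exact s2 hp
  · rw [Set.Finite.coe_toFinset]
    exact descend' f hW (ce_good (h𝓔 E hE)) κ S1 S2 p1 p2 (m1 W hW E hE) (m2 W hW E hE)

/-- **Reduction to trilinear polynomials**, for all sets of origins at once and for every collection
`𝓔` of conditions on the angular component (`Good E`: `E` is a constructible set of non-zero numbers). -/
theorem result (𝓔 : Set (Set (AlgebraicClosure ℂ))) (h𝓔 : ∀ E ∈ 𝓔, Good E) :
    (∀ (n : ℕ) (f : MvPolynomial (Fin n) ℂ), f.totalDegree ≠ 0 → UniformMC 𝓔 f) ↔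
      ∀ (n : ℕ) (f : MvPolynomial (Fin n) ℂ), f.totalDegree ≠ 0 → Trilinear f → UniformMC 𝓔 f :=
  ⟨fun h n f hf _ => h n f hf, fun h _ f hf => transfer 𝓔 h𝓔 h f hf⟩

end Pool.Agent.Results.MP_b48657_ag.TrilinearReduction
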